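import Pool.Agent.H38.AE.Targets

/-! Module HA: the general curve bound. -/

set_option autoImplicit false

namespace Pool.Agent.H74.AE.HA

open Pool.Agent.H38.AE

theorem six_dvd (D : ℕ) : 6 ∣ D * (D + 1) * (D + 2) := by
  have h : D % 6 < 6 := Nat.mod_lt _ (by norm_num)
  apply Nat.dvd_of_mod_eq_zero
  interval_cases h1 : D % 6 <;> simp [Nat.mul_mod, Nat.add_mod, h1]

theorem two_dvd (n : ℕ) : 2 ∣ n * (n + 1) := (Nat.even_mul_succ_self n).two_dvd

/-- the exponents -/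
theorem expo (D : ℕ) : ∃ s q1 q2 : ℕ, s = (D + 1) * (D + 2) / 2 ∧
    q1 = D * (D + 1) * (D + 2) / 6 ∧ q2 = s * (s - 1) / 2 ∧ (D ≤ q2) ∧
    4 / (3 * ((D : ℝ) + 3)) * q2 = q1 := by
  obtain ⟨s, hs⟩ := two_dvd (D + 1)
  obtain ⟨q1, hq1⟩ := six_dvd D
  have hs2 : (D + 1) * (D + 2) / 2 = s := by
    rw [show (D + 1) * (D + 2) = (D + 1) * (D + 1 + 1) by ring, hs]
    exact Nat.mul_div_cancel_left s (by norm_num)
  have hq12 : D * (D + 1) * (D + 2) / 6 = q1 := by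
    rw [hq1]
    exact Nat.mul_div_cancel_left q1 (by norm_num)
  have hspos : 1 ≤ s := by nlinarith
  obtain ⟨m, rfl⟩ : ∃ m, s = m + 1 := ⟨s - 1, by omega⟩
  obtain ⟨q2, hq2⟩ := two_dvd m
  have hq22 : (m + 1) * (m + 1 - 1) / 2 = q2 := by
    rw [show (m + 1) * (m + 1 - 1) = m * (m + 1) by rw [Nat.add_sub_cancel]; ring, hq2]
    exact Nat.mul_div_cancel_left q2 (by norm_num)
  refine ⟨m + 1, q1, q2, hs2.symm, hq12.symm, hq22.symm, ?_, ?_⟩
  · nlinarith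
  · have h1 : ((D : ℝ) + 1) * (D + 1 + 1) = 2 * (m + 1) := by exact_mod_cast hs
    have h2 : (D : ℝ) * (D + 1) * (D + 2) = 6 * q1 := by exact_mod_cast hq1
    have h3 : (m : ℝ) * (m + 1) = 2 * q2 := by exact_mod_cast hq2
    have hD : (0 : ℝ) < 3 * ((D : ℝ) + 3) := by positivity
    rw [div_mul_eq_mul_div, div_eq_iff hD.ne']
    have h4 : (m : ℝ) = (D : ℝ) * (D + 3) / 2 := by linarith
    rw [h4] at h3
    nlinarith

/-- the number of classes -/
theorem classes {ℓ : ℕ} [Fact ℓ.Prime] (a b E : ℤ) (e f : ℕ) (hf : 0 < f)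
    (hb : ¬ (ℓ : ℤ) ∣ b) (S : Finset (ZMod ℓ × ZMod ℓ))
    (hS : ∀ w ∈ S, (a : ZMod ℓ) * w.1 ^ e + b * w.2 ^ f = E) : S.card ≤ ℓ * f := by
  classical
  have hb0 : (b : ZMod ℓ) ≠ 0 := by
    rwa [Ne, ZMod.intCast_zmod_eq_zero_iff_dvd]
  let c : ZMod ℓ → ZMod ℓ := fun u => ((E : ZMod ℓ) - a * u ^ e) / b
  have hsub : S ⊆ (Finset.univ : Finset (ZMod ℓ)).biUnion
      (fun u => (Polynomial.nthRoots f (c u)).toFinset.image (fun v => (u, v))) := by
    rintro ⟨u, v⟩ hw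
    rw [Finset.mem_biUnion]
    refine ⟨u, Finset.mem_univ _, ?_⟩
    rw [Finset.mem_image]
    refine ⟨v, ?_, rfl⟩
    rw [Multiset.mem_toFinset, Polynomial.mem_nthRoots hf]
    have h1 := hS _ hw
    simp only at h1
    simp only [c]
    rw [eq_div_iff hb0, ← h1]
    ring
  refine (Finset.card_le_card hsub).trans ?_
  have h2 := Finset.card_biUnion_le_card_mul (Finset.univ : Finset (ZMod ℓ))
    (fun u => (Polynomial.nthRoots f (c u)).toFinset.image (fun v => (u, v))) f (fun u _ => ?_)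
  · rwa [Finset.card_univ, ZMod.card] at h2
  · exact Finset.card_image_le.trans ((Multiset.toFinset_card_le _).trans
      (Polynomial.card_nthRoots f (c u)))

/-- HA -/
theorem pf_HA (hHR : T_HR) (hHB : T_HB) (hHC : T_HC) : T_HA := by
  classical
  intro D hD e f ε he hf hε
  obtain ⟨κ, hκ⟩ : ∃ κ : ℝ, κ = 4 / (3 * ((D : ℝ) + 3)) := ⟨_, rfl⟩
  have hκ0 : 0 < κ := by rw [hκ]; positivity
  obtain ⟨s, q1, q2, hs, hq1, hq2, hDq, hexp⟩ := expo D
  rw [← hκ] at hexp ⊢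
  obtain ⟨B, hB⟩ := hHB D e f he hf
  obtain ⟨C', hC'1, hC'⟩ := hHC (e * f + 3) ε hε
  have hC'0 : 0 < C' := by linarith
  have hsf : (0 : ℝ) < s.factorial := by exact_mod_cast Nat.factorial_pos s
  refine ⟨f * B * C' * (3 + 2 * s.factorial) + 1, by positivity, ?_⟩
  intro N a b E hN ha hb hE haN hbN hEN U V hU hV hUN hVN
  have hN1 : (1 : ℝ) ≤ N := by exact_mod_cast hN
  have hU1 : (1 : ℝ) ≤ U := by exact_mod_cast hU
  have hV1 : (1 : ℝ) ≤ V := by exact_mod_cast hV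
  have hUV1 : (1 : ℝ) ≤ (U : ℝ) * V := by nlinarith
  have hNε : (1 : ℝ) ≤ (N : ℝ) ^ ε := Real.one_le_rpow hN1 hε.le
  have hUVκ : (1 : ℝ) ≤ ((U : ℝ) * V) ^ κ := Real.one_le_rpow hUV1 hκ0.le
  obtain ⟨P, hP⟩ : ∃ P : Finset (ℕ × ℕ), P = (Finset.Icc 1 U ×ˢ Finset.Icc 1 V).filter
    (fun t => a * (t.1 : ℤ) ^ e + b * (t.2 : ℤ) ^ f = E) := ⟨_, rfl⟩
  rw [← hP]
  have hprod : (1 : ℝ) ≤ (N : ℝ) ^ ε * ((U : ℝ) * V) ^ κ := by nlinarith
  rcases Nat.lt_or_ge N 2 with hN2 | hN2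
  · -- one point
    have hU' : U = 1 := by omega
    have hV' : V = 1 := by omega
    have hc : P.card ≤ 1 := by
      rw [hP]
      refine (Finset.card_filter_le _ _).trans ?_
      rw [hU', hV']
      simp
    have hc' : (P.card : ℝ) ≤ 1 := by exact_mod_cast hc
    have h1 : (1 : ℝ) ≤ f * B * C' * (3 + 2 * s.factorial) + 1 := by
      have : (0 : ℝ) ≤ f * B * C' * (3 + 2 * s.factorial) := by positivity
      linarith
    rw [mul_assoc]
    nlinarith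
  · -- the prime
    obtain ⟨T, hT⟩ : ∃ T : ℕ, T = a.natAbs * b.natAbs * E.natAbs * (e * f) := ⟨_, rfl⟩
    have ha' : 1 ≤ a.natAbs := Int.natAbs_pos.2 ha
    have hb' : 1 ≤ b.natAbs := Int.natAbs_pos.2 hb
    have hE' : 1 ≤ E.natAbs := Int.natAbs_pos.2 hE
    have haN' : a.natAbs ≤ N := by rw [Int.abs_eq_natAbs] at haN; exact_mod_cast haN
    have hbN' : b.natAbs ≤ N := by rw [Int.abs_eq_natAbs] at hbN; exact_mod_cast hbN
    have hEN' : E.natAbs ≤ N := by rw [Int.abs_eq_natAbs] at hEN; exact_mod_cast hEN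
    have hef : 1 ≤ e * f := Nat.mul_pos (by omega) (by omega)
    have hT1 : 1 ≤ T := by
      rw [hT]
      exact Nat.mul_pos (Nat.mul_pos (Nat.mul_pos ha' hb') hE') hef
    have hTN : T ≤ N ^ (e * f + 3) := by
      rw [hT, pow_add, mul_comm]
      refine Nat.mul_le_mul ?_ ?_
      · calc e * f ≤ 2 ^ (e * f) := Nat.lt_two_pow_self.le
          _ ≤ N ^ (e * f) := Nat.pow_le_pow_left hN2 _
      · calc a.natAbs * b.natAbs * E.natAbs ≤ N * N * N :=
            Nat.mul_le_mul (Nat.mul_le_mul haN' hbN') hEN'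
          _ = N ^ 3 := by ring
    obtain ⟨L, hL⟩ : ∃ L : ℝ, L = max 2 (max ((N : ℝ) ^ ε)
      (2 * s.factorial * ((U : ℝ) * V) ^ κ)) := ⟨_, rfl⟩
    have hL2 : 2 ≤ L := by rw [hL]; exact le_max_left _ _
    have hLN : (N : ℝ) ^ ε ≤ L := by
      rw [hL]; exact (le_max_left _ _).trans (le_max_right _ _)
    have hLU : 2 * s.factorial * ((U : ℝ) * V) ^ κ ≤ L := by
      rw [hL]; exact (le_max_right _ _).trans (le_max_right _ _)
    obtain ⟨ℓ, hℓp, hℓT, hLℓ, hℓC⟩ := hC' N T L hN hT1 hTN hL2 hLN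
    haveI : Fact ℓ.Prime := ⟨hℓp⟩
    have hℓ : ∀ n : ℕ, n ∣ T → ¬ ℓ ∣ n := fun n hn h => hℓT (h.trans hn)
    have hℓa : ¬ (ℓ : ℤ) ∣ a := by
      rw [← Int.dvd_natAbs, Int.natCast_dvd_natCast]
      refine hℓ _ ?_
      rw [hT]
      exact ((dvd_mul_right _ _).mul_right _).mul_right _
    have hℓb : ¬ (ℓ : ℤ) ∣ b := by
      rw [← Int.dvd_natAbs, Int.natCast_dvd_natCast]
      refine hℓ _ ?_
      rw [hT]
      exact ((dvd_mul_left _ _).mul_right _).mul_right _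
    have hℓE : ¬ (ℓ : ℤ) ∣ E := by
      rw [← Int.dvd_natAbs, Int.natCast_dvd_natCast]
      refine hℓ _ ?_
      rw [hT]
      exact (dvd_mul_left _ _).mul_right _
    have hℓe : ¬ ℓ ∣ e := hℓ _ (by rw [hT]; exact (dvd_mul_right _ _).mul_left _)
    have hℓf : ¬ ℓ ∣ f := hℓ _ (by rw [hT]; exact (dvd_mul_left _ _).mul_left _)
    -- the inequality
    have hineq : Nat.factorial ((D + 1) * (D + 2) / 2) * (U * V) ^ (D * (D + 1) * (D + 2) / 6) <
        ℓ ^ ((D + 1) * (D + 2) / 2 * ((D + 1) * (D + 2) / 2 - 1) / 2) := by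
      rw [← hs, ← hq1, ← hq2]
      have hq2' : q2 ≠ 0 := by omega
      have h1 : 2 * s.factorial * ((U : ℝ) * V) ^ κ < ℓ := lt_of_le_of_lt hLU hLℓ
      have h2 : (2 * s.factorial * ((U : ℝ) * V) ^ κ) ^ q2 < (ℓ : ℝ) ^ q2 :=
        pow_lt_pow_left₀ h1 (by positivity) hq2'
      have h3 : (((U : ℝ) * V) ^ κ) ^ q2 = ((U : ℝ) * V) ^ q1 := by
        rw [← Real.rpow_natCast, ← Real.rpow_mul (by positivity), hexp, Real.rpow_natCast]
      have h4 : (s.factorial : ℝ) ≤ (2 * s.factorial) ^ q2 := by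
        have h5 : (1 : ℝ) ≤ 2 * s.factorial := by
          have : (1 : ℝ) ≤ s.factorial := by exact_mod_cast Nat.factorial_pos s
          linarith
        calc (s.factorial : ℝ) ≤ 2 * s.factorial := by linarith
          _ ≤ (2 * s.factorial) ^ q2 := le_self_pow₀ h5 hq2'
      rw [mul_pow, h3] at h2
      have h6 : (s.factorial : ℝ) * ((U : ℝ) * V) ^ q1 < (ℓ : ℝ) ^ q2 := by
        refine lt_of_le_of_lt ?_ h2
        exact mul_le_mul_of_nonneg_right h4 (by positivity)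
      exact_mod_cast h6
    -- the classes
    let π : ℕ × ℕ → ZMod ℓ × ZMod ℓ := fun t => ((t.1 : ZMod ℓ), (t.2 : ZMod ℓ))
    have hPm : ∀ t ∈ P, (1 ≤ t.1 ∧ t.1 ≤ U) ∧ (1 ≤ t.2 ∧ t.2 ≤ V) ∧
        a * (t.1 : ℤ) ^ e + b * (t.2 : ℤ) ^ f = E := by
      intro t ht
      rw [hP, Finset.mem_filter, Finset.mem_product, Finset.mem_Icc, Finset.mem_Icc] at ht
      exact ⟨ht.1.1, ht.1.2, ht.2⟩
    have himg : (P.image π).card ≤ ℓ * f := by
      refine classes a b E e f (by omega) hℓb _ fun w hw => ?_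
      obtain ⟨t, ht, rfl⟩ := Finset.mem_image.1 hw
      have := congrArg (Int.cast : ℤ → ZMod ℓ) (hPm t ht).2.2
      push_cast at this
      exact this
    have hfib : ∀ w ∈ P.image π, (P.filter (fun t => π t = w)).card ≤ B := by
      intro w _
      let g : ℕ × ℕ ↪ ℤ × ℤ := ⟨fun t => ((t.1 : ℤ), (t.2 : ℤ)), fun t t' h => by
        simp only [Prod.mk.injEq, Nat.cast_inj] at h
        exact Prod.ext h.1 h.2⟩
      have hQ : ∀ t ∈ (P.filter (fun t => π t = w)).map g, 1 ≤ t.1 ∧ t.1 ≤ U ∧ 1 ≤ t.2 ∧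
          t.2 ≤ V ∧ a * t.1 ^ e + b * t.2 ^ f = E := by
        intro t ht
        obtain ⟨t', ht', rfl⟩ := Finset.mem_map.1 ht
        obtain ⟨h1, h2, h3⟩ := hPm t' (Finset.mem_filter.1 ht').1
        refine ⟨?_, ?_, ?_, ?_, h3⟩
        · show (1 : ℤ) ≤ (t'.1 : ℤ)
          exact_mod_cast h1.1
        · show (t'.1 : ℤ) ≤ (U : ℤ)
          exact_mod_cast h1.2
        · show (1 : ℤ) ≤ (t'.2 : ℤ)
          exact_mod_cast h2.1
        · show (t'.2 : ℤ) ≤ (V : ℤ)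
          exact_mod_cast h2.2
      have hcong : ∀ t ∈ (P.filter (fun t => π t = w)).map g,
          ∀ t' ∈ (P.filter (fun t => π t = w)).map g,
          (ℓ : ℤ) ∣ t.1 - t'.1 ∧ (ℓ : ℤ) ∣ t.2 - t'.2 := by
        intro t ht t' ht'
        obtain ⟨u, hu, rfl⟩ := Finset.mem_map.1 ht
        obtain ⟨u', hu', rfl⟩ := Finset.mem_map.1 ht'
        have h1 : π u = π u' := (Finset.mem_filter.1 hu).2.trans (Finset.mem_filter.1 hu').2.symm
        simp only [π, Prod.mk.injEq] at h1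
        refine ⟨?_, ?_⟩
        · rw [← ZMod.intCast_zmod_eq_zero_iff_dvd]
          show (((u.1 : ℤ) - (u'.1 : ℤ) : ℤ) : ZMod ℓ) = 0
          push_cast
          rw [h1.1, sub_self]
        · rw [← ZMod.intCast_zmod_eq_zero_iff_dvd]
          show (((u.2 : ℤ) - (u'.2 : ℤ) : ℤ) : ZMod ℓ) = 0
          push_cast
          rw [h1.2, sub_self]
      obtain ⟨h, hne, hzero⟩ := hHR D ℓ a b E e f U V hℓp (by omega) (by omega) hℓa hℓb hℓE hℓe
        hℓf hineq _ hQ hcong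
      have := hB a b E ha hb hE h hne ((P.filter (fun t => π t = w)).map g) (fun t ht => by
        obtain ⟨h1, -, h3, -, h5⟩ := hQ t ht
        exact ⟨h1, h3, h5, hzero t ht⟩)
      rwa [Finset.card_map] at this
    have hcard : P.card ≤ B * (ℓ * f) :=
      (Finset.card_le_mul_card_image P B hfib).trans (Nat.mul_le_mul_left _ himg)
    have hcard' : (P.card : ℝ) ≤ B * (ℓ * f) := by exact_mod_cast hcard
    have hLle : L ≤ (3 + 2 * s.factorial) * ((N : ℝ) ^ ε * ((U : ℝ) * V) ^ κ) := by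
      rw [hL]
      have hx : (N : ℝ) ^ ε ≤ (N : ℝ) ^ ε * ((U : ℝ) * V) ^ κ := by nlinarith
      have hy : ((U : ℝ) * V) ^ κ ≤ (N : ℝ) ^ ε * ((U : ℝ) * V) ^ κ := by nlinarith
      refine max_le ?_ (max_le ?_ ?_) <;> nlinarith
    calc (P.card : ℝ) ≤ B * (ℓ * f) := hcard'
      _ ≤ B * ((C' * L) * f) := by gcongr
      _ ≤ B * ((C' * ((3 + 2 * s.factorial) * ((N : ℝ) ^ ε * ((U : ℝ) * V) ^ κ))) * f) := by
          gcongr
      _ = (f * B * C' * (3 + 2 * s.factorial)) * ((N : ℝ) ^ ε * ((U : ℝ) * V) ^ κ) := by ring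
      _ ≤ (f * B * C' * (3 + 2 * s.factorial) + 1) * ((N : ℝ) ^ ε * ((U : ℝ) * V) ^ κ) := by
          refine mul_le_mul_of_nonneg_right (by linarith) (by positivity)
      _ = _ := by ring

end Pool.Agent.H74.AE.HA
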