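import Pool.Agent.H38.AE.Targets

/-! Module J3: triples whose first two entries are nearly powers. -/

set_option autoImplicit false

namespace Pool.Agent.H74.AE.J3

open Pool.Agent.H38.AE

theorem rad_pos (n : ℕ) : 0 < rad n :=
  Finset.prod_pos fun _ hp => (Nat.prime_of_mem_primeFactors hp).pos

theorem RR_pos (x : ℤ) : 0 < RR x := by
  unfold RR
  exact_mod_cast rad_pos _

/-- the logarithm is smaller than any power -/
theorem log_bound {ε : ℝ} (hε : 0 < ε) {H : ℕ} (hH : 1 ≤ H) :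
    ((Nat.log 2 H + 1 : ℕ) : ℝ) ≤ (1 + 1 / (ε * Real.log 2)) * (H : ℝ) ^ ε := by
  have hl : 0 < Real.log 2 := Real.log_pos (by norm_num)
  obtain ⟨x, hx⟩ : ∃ x : ℕ, x = Nat.log 2 H := ⟨_, rfl⟩
  rw [← hx]
  have h1 : 2 ^ x ≤ H := by rw [hx]; exact Nat.pow_log_le_self 2 (by omega)
  have hH1 : (1 : ℝ) ≤ (H : ℝ) ^ ε := Real.one_le_rpow (by exact_mod_cast hH) hε.le
  have h2 : ((2 : ℝ) ^ (x : ℝ)) ^ ε ≤ (H : ℝ) ^ ε := by
    apply Real.rpow_le_rpow (by positivity) _ hε.le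
    rw [Real.rpow_natCast]
    exact_mod_cast h1
  have h3 : ((2 : ℝ) ^ (x : ℝ)) ^ ε = Real.exp (Real.log 2 * x * ε) := by
    rw [Real.rpow_def_of_pos (by norm_num : (0 : ℝ) < 2), ← Real.exp_mul]
  have h4 := Real.add_one_le_exp (Real.log 2 * x * ε)
  rw [← h3] at h4
  have h5 : (x : ℝ) * (ε * Real.log 2) ≤ (H : ℝ) ^ ε := by nlinarith
  have h6 : (x : ℝ) ≤ 1 / (ε * Real.log 2) * (H : ℝ) ^ ε := by
    rw [one_div, ← div_eq_inv_mul, le_div_iff₀ (by positivity)]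
    exact h5
  push_cast
  linarith

/-- the nonzero integers of absolute value at most `H` -/
noncomputable def Az (H : ℕ) : Finset ℤ := (Finset.Icc (-(H : ℤ)) H).filter (· ≠ 0)

theorem mem_Az {H : ℕ} {a : ℤ} : a ∈ Az H ↔ |a| ≤ H ∧ a ≠ 0 := by
  unfold Az
  rw [Finset.mem_filter, Finset.mem_Icc, abs_le]

theorem sum_Az (H : ℕ) : ∑ a ∈ Az H, 1 / RR a ≤ 2 * ∑ n ∈ Finset.Icc 1 H, (1 : ℝ) / (rad n : ℝ) := by
  classical
  have hmap : ∀ a ∈ Az H, a.natAbs ∈ Finset.Icc 1 H := by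
    intro a ha
    rw [mem_Az] at ha
    rw [Finset.mem_Icc]
    have h1 := ha.1
    have h2 := ha.2
    rw [Int.abs_eq_natAbs] at h1
    omega
  rw [← Finset.sum_fiberwise_of_maps_to hmap, Finset.mul_sum]
  refine Finset.sum_le_sum fun n _ => ?_
  have h1 : ∑ a ∈ (Az H).filter (fun a => a.natAbs = n), 1 / RR a =
      ∑ a ∈ (Az H).filter (fun a => a.natAbs = n), (1 : ℝ) / (rad n : ℝ) := by
    refine Finset.sum_congr rfl fun a ha => ?_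
    rw [Finset.mem_filter] at ha
    unfold RR
    rw [ha.2]
  rw [h1, Finset.sum_const, nsmul_eq_mul]
  refine mul_le_mul_of_nonneg_right ?_ (by positivity)
  have h2 : (Az H).filter (fun a => a.natAbs = n) ⊆ {(n : ℤ), -(n : ℤ)} := by
    intro a ha
    rw [Finset.mem_filter] at ha
    have := ha.2
    simp only [Finset.mem_insert, Finset.mem_singleton]
    omega
  have h3 := (Finset.card_le_card h2).trans Finset.card_le_two
  exact_mod_cast h3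

theorem sum_prod_mul {α β : Type} (s : Finset α) (t : Finset β) (f : α → ℝ) (g : β → ℝ) :
    ∑ p ∈ s ×ˢ t, f p.1 * g p.2 = (∑ a ∈ s, f a) * ∑ b ∈ t, g b := by
  rw [Finset.sum_product, Finset.sum_mul_sum]

/-- J3 -/
theorem pf_J3 (hA : T_A) : T_J3 := by
  classical
  intro D K κ ε hκ hε hHD
  obtain ⟨δ, hδ⟩ : ∃ δ : ℝ, δ = ε / 6 := ⟨_, rfl⟩
  have hδ0 : 0 < δ := by rw [hδ]; linarith
  obtain ⟨CA, hCA, hA⟩ := hA δ hδ0
  have hex : ∀ e f : ℕ, D < e → D < f → ∃ C : ℝ, 0 < C ∧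
      ∀ (N : ℕ) (a b E : ℤ), 1 ≤ N → a ≠ 0 → b ≠ 0 → E ≠ 0 → |a| ≤ N → |b| ≤ N → |E| ≤ N →
      ∀ U V : ℕ, 1 ≤ U → 1 ≤ V → U ≤ N → V ≤ N →
      (((Finset.Icc 1 U ×ˢ Finset.Icc 1 V).filter
        (fun t => a * (t.1 : ℤ) ^ e + b * (t.2 : ℤ) ^ f = E)).card : ℝ) ≤
        C * (N : ℝ) ^ δ * ((U : ℝ) * V) ^ κ := fun e f he hf => hHD e f δ he hf hδ0
  choose! C0 hC0 hC using hex
  obtain ⟨CE, hCE⟩ : ∃ CE : ℝ, CE = ∑ x ∈ (Finset.Ioc D K) ×ˢ (Finset.Ioc D K), C0 x.1 x.2 :=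
    ⟨_, rfl⟩
  have hCE0 : 0 ≤ CE := by
    rw [hCE]
    refine Finset.sum_nonneg fun x hx => ?_
    rw [Finset.mem_product, Finset.mem_Ioc, Finset.mem_Ioc] at hx
    exact (hC0 _ _ hx.1.1 hx.2.1).le
  obtain ⟨CL, hCL⟩ : ∃ CL : ℝ, CL = 1 + 1 / (δ * Real.log 2) := ⟨_, rfl⟩
  have hCL0 : 0 < CL := by
    have : 0 < Real.log 2 := Real.log_pos (by norm_num)
    rw [hCL]; positivity
  refine ⟨(CE * (2 ^ δ * 4 ^ κ) + 1) * (CL * CL) * (2 * CA) ^ 3, by positivity,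
    fun H Z hH hZ => ?_⟩
  have hH0 : (0 : ℝ) < H := by exact_mod_cast hH
  obtain ⟨L, hL⟩ : ∃ L : ℕ, L = Nat.log 2 H + 1 := ⟨_, rfl⟩
  obtain ⟨S, hS⟩ : ∃ S : ℝ, S = ∑ a ∈ Az H, 1 / RR a := ⟨_, rfl⟩
  have hS1 : S ≤ 2 * CA * (H : ℝ) ^ δ := by
    rw [hS]
    refine (sum_Az H).trans ?_
    have := hA H hH
    linarith
  have hS0 : 0 ≤ S := by
    rw [hS]
    exact Finset.sum_nonneg fun a _ => (one_div_pos.2 (RR_pos a)).le
  have hL1 : (L : ℝ) ≤ CL * (H : ℝ) ^ δ := by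
    rw [hL, hCL]
    exact log_bound hδ0 hH
  -- the families
  let I1 : Finset ((ℕ × ℕ) × (ℕ × ℕ)) :=
    ((Finset.Ioc D K) ×ˢ (Finset.Ioc D K)) ×ˢ ((Finset.range L) ×ˢ (Finset.range L))
  let I2 : Finset (ℤ × (ℤ × ℤ)) := (Az H) ×ˢ ((Az H) ×ˢ (Az H))
  let F : ((ℕ × ℕ) × (ℕ × ℕ)) × (ℤ × (ℤ × ℤ)) → Finset (ℤ × ℤ × ℤ) := fun w =>
    if RR w.2.1 * RR w.2.2.1 * RR w.2.2.2 * (((2 : ℝ) ^ w.1.2.1) * (2 : ℝ) ^ w.1.2.2) ^ κ ≤ Z then
      ((Finset.Icc 1 (2 ^ (w.1.2.1 + 1)) ×ˢ Finset.Icc 1 (2 ^ (w.1.2.2 + 1))).filter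
        (fun t : ℕ × ℕ => w.2.1 * (t.1 : ℤ) ^ w.1.1.1 + w.2.2.1 * (t.2 : ℤ) ^ w.1.1.2 =
          -w.2.2.2)).image
        (fun t => (w.2.1 * (t.1 : ℤ) ^ w.1.1.1, w.2.2.1 * (t.2 : ℤ) ^ w.1.1.2, w.2.2.2))
    else ∅
  have hcover : SJ H Z κ D K ⊆ ((I1 ×ˢ I2).biUnion F : Finset (ℤ × ℤ × ℤ)) := by
    rintro ⟨x, y, c⟩ ⟨hT, a, b, p, r, e, f, hp, hr, he, heK, hf, hfK, hx, hy, hZZ⟩
    obtain ⟨hx0, hy0, hc0, -, -, -, hsum, hxH, hyH, hcH⟩ := hT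
    simp only at hx0 hy0 hc0 hsum hxH hyH hcH hx hy hZZ
    have hpow : ∀ (u : ℤ) (v g : ℕ), 1 ≤ v → 1 ≤ g → u * (v : ℤ) ^ g ≠ 0 →
        |u * (v : ℤ) ^ g| ≤ H → u ∈ Az H ∧ v ≤ H := by
      intro u v g hv hg hne hle
      have hu : u ≠ 0 := left_ne_zero_of_mul hne
      rw [abs_mul, abs_of_nonneg (by positivity : (0 : ℤ) ≤ (v : ℤ) ^ g)] at hle
      have h1 : (1 : ℤ) ≤ |u| := Int.one_le_abs hu
      have h2 : (v : ℤ) ≤ (v : ℤ) ^ g := le_self_pow₀ (by exact_mod_cast hv) (by omega)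
      have hv1 : (1 : ℤ) ≤ v := by exact_mod_cast hv
      refine ⟨mem_Az.2 ⟨?_, hu⟩, ?_⟩
      · nlinarith
      · have : (v : ℤ) ≤ H := by nlinarith
        exact_mod_cast this
    obtain ⟨haA, hpH⟩ := hpow a p e hp (by omega) (hx ▸ hx0) (hx ▸ hxH)
    obtain ⟨hbA, hrH⟩ := hpow b r f hr (by omega) (hy ▸ hy0) (hy ▸ hyH)
    have hcA : c ∈ Az H := mem_Az.2 ⟨hcH, hc0⟩
    have hlogp : Nat.log 2 p < L := by
      rw [hL]; exact Nat.lt_succ_of_le (Nat.log_mono_right hpH)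
    have hlogr : Nat.log 2 r < L := by
      rw [hL]; exact Nat.lt_succ_of_le (Nat.log_mono_right hrH)
    have hp1 : 2 ^ Nat.log 2 p ≤ p := Nat.pow_log_le_self 2 (by omega)
    have hp2 : p < 2 ^ (Nat.log 2 p + 1) := Nat.lt_pow_succ_log_self (by norm_num) p
    have hr1 : 2 ^ Nat.log 2 r ≤ r := Nat.pow_log_le_self 2 (by omega)
    have hr2 : r < 2 ^ (Nat.log 2 r + 1) := Nat.lt_pow_succ_log_self (by norm_num) r
    rw [Finset.mem_coe, Finset.mem_biUnion]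
    refine ⟨(((e, f), (Nat.log 2 p, Nat.log 2 r)), (a, (b, c))), ?_, ?_⟩
    · simp only [I1, I2, Finset.mem_product, Finset.mem_Ioc, Finset.mem_range]
      exact ⟨⟨⟨⟨he, heK⟩, ⟨hf, hfK⟩⟩, ⟨hlogp, hlogr⟩⟩, haA, hbA, hcA⟩
    · have hcond : RR a * RR b * RR c *
          (((2 : ℝ) ^ Nat.log 2 p) * (2 : ℝ) ^ Nat.log 2 r) ^ κ ≤ Z := by
        refine le_trans ?_ hZZ
        have h0 : 0 ≤ RR a * RR b * RR c :=
          (mul_pos (mul_pos (RR_pos a) (RR_pos b)) (RR_pos c)).le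
        refine mul_le_mul_of_nonneg_left (Real.rpow_le_rpow (by positivity) ?_ hκ) h0
        have h1 : ((2 : ℝ) ^ Nat.log 2 p) ≤ p := by exact_mod_cast hp1
        have h2 : ((2 : ℝ) ^ Nat.log 2 r) ≤ r := by exact_mod_cast hr1
        gcongr
      simp only [F]
      rw [if_pos hcond, Finset.mem_image]
      refine ⟨(p, r), ?_, ?_⟩
      · rw [Finset.mem_filter, Finset.mem_product, Finset.mem_Icc, Finset.mem_Icc]
        refine ⟨⟨⟨hp, hp2.le⟩, ⟨hr, hr2.le⟩⟩, ?_⟩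
        simp only
        rw [← hx, ← hy]
        linarith
      · simp only
        rw [← hx, ← hy]
  have hbound : ∀ w ∈ I1 ×ˢ I2, ((F w).card : ℝ) ≤
      (C0 w.1.1.1 w.1.1.2 * 1) * (1 / RR w.2.1 * (1 / RR w.2.2.1 * (1 / RR w.2.2.2))) *
        (2 ^ δ * 4 ^ κ * (H : ℝ) ^ δ * Z) := by
    rintro ⟨⟨⟨e, f⟩, ⟨i, k⟩⟩, ⟨a, b, c⟩⟩ hw
    simp only [I1, I2, Finset.mem_product, Finset.mem_Ioc, Finset.mem_range] at hw
    obtain ⟨⟨⟨⟨he, -⟩, ⟨hf, -⟩⟩, ⟨hi, hk⟩⟩, ha, hb, hc⟩ := hw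
    rw [mem_Az] at ha hb hc
    have hCef := hC0 e f he hf
    have hRa := RR_pos a
    have hRb := RR_pos b
    have hRc := RR_pos c
    simp only [F]
    split_ifs with hcond
    · refine le_trans (Nat.cast_le.2 Finset.card_image_le) ?_
      have hpow2 : ∀ i : ℕ, i < L → 2 ^ (i + 1) ≤ 2 * H := by
        intro i hi
        rw [hL] at hi
        have h1 : 2 ^ i ≤ 2 ^ Nat.log 2 H := Nat.pow_le_pow_right (by norm_num) (by omega)
        have h2 : 2 ^ Nat.log 2 H ≤ H := Nat.pow_log_le_self 2 (by omega)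
        rw [pow_succ]
        omega
      have h1 := hC e f he hf (2 * H) a b (-c) (by omega) ha.2 hb.2 (neg_ne_zero.2 hc.2)
        (by push_cast; linarith [ha.1]) (by push_cast; linarith [hb.1])
        (by rw [abs_neg]; push_cast; linarith [hc.1]) (2 ^ (i + 1)) (2 ^ (k + 1))
        (Nat.one_le_two_pow) (Nat.one_le_two_pow) (hpow2 i hi) (hpow2 k hk)
      refine h1.trans ?_
      have h2 : ((2 * H : ℕ) : ℝ) ^ δ = 2 ^ δ * (H : ℝ) ^ δ := by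
        push_cast
        rw [Real.mul_rpow (by norm_num) hH0.le]
      have h3 : (((2 ^ (i + 1) : ℕ) : ℝ) * ((2 ^ (k + 1) : ℕ) : ℝ)) ^ κ =
          4 ^ κ * (((2 : ℝ) ^ i) * (2 : ℝ) ^ k) ^ κ := by
        rw [← Real.mul_rpow (by norm_num) (by positivity)]
        congr 1
        push_cast
        ring
      rw [h2, h3]
      have h4 : (((2 : ℝ) ^ i) * (2 : ℝ) ^ k) ^ κ ≤
          1 / RR a * (1 / RR b * (1 / RR c)) * Z := by
        have h5 : 1 / RR a * (1 / RR b * (1 / RR c)) * Z = Z / (RR a * RR b * RR c) := by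
          field_simp
        rw [h5, le_div_iff₀ (by positivity)]
        linarith
      calc C0 e f * (2 ^ δ * (H : ℝ) ^ δ) * (4 ^ κ * (((2 : ℝ) ^ i) * (2 : ℝ) ^ k) ^ κ)
          ≤ C0 e f * (2 ^ δ * (H : ℝ) ^ δ) *
              (4 ^ κ * (1 / RR a * (1 / RR b * (1 / RR c)) * Z)) := by gcongr
        _ = _ := by ring
    · simp only [Finset.card_empty, Nat.cast_zero]
      positivity
  have hfin : ((I1 ×ˢ I2).biUnion F : Set (ℤ × ℤ × ℤ)).ncard =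
      ((I1 ×ˢ I2).biUnion F).card := Set.ncard_coe_finset _
  calc ((SJ H Z κ D K).ncard : ℝ)
      ≤ (((I1 ×ˢ I2).biUnion F : Finset (ℤ × ℤ × ℤ)).card : ℝ) := by
        rw [← Set.ncard_coe_finset]
        exact_mod_cast Set.ncard_le_ncard hcover (Finset.finite_toSet _)
    _ ≤ ∑ w ∈ I1 ×ˢ I2, ((F w).card : ℝ) := by exact_mod_cast Finset.card_biUnion_le
    _ ≤ ∑ w ∈ I1 ×ˢ I2, (C0 w.1.1.1 w.1.1.2 * 1) *
          (1 / RR w.2.1 * (1 / RR w.2.2.1 * (1 / RR w.2.2.2))) *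
            (2 ^ δ * 4 ^ κ * (H : ℝ) ^ δ * Z) := Finset.sum_le_sum hbound
    _ = (CE * (L * L)) * (S * (S * S)) * (2 ^ δ * 4 ^ κ * (H : ℝ) ^ δ * Z) := by
        rw [← Finset.sum_mul]
        congr 1
        have e1 := sum_prod_mul I1 I2 (fun x => C0 x.1.1 x.1.2 * 1)
          (fun y => 1 / RR y.1 * (1 / RR y.2.1 * (1 / RR y.2.2)))
        rw [e1]
        have e2 := sum_prod_mul ((Finset.Ioc D K) ×ˢ (Finset.Ioc D K))
          ((Finset.range L) ×ˢ (Finset.range L)) (fun x => C0 x.1 x.2) (fun _ => (1 : ℝ))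
        have e3 := sum_prod_mul (Az H) ((Az H) ×ˢ (Az H)) (fun a => 1 / RR a)
          (fun y => 1 / RR y.1 * (1 / RR y.2))
        have e4 := sum_prod_mul (Az H) (Az H) (fun a => 1 / RR a) (fun a => 1 / RR a)
        simp only [I1, I2]
        rw [e2, e3, e4, ← hS, ← hCE]
        simp
    _ ≤ (CE * ((CL * (H : ℝ) ^ δ) * (CL * (H : ℝ) ^ δ))) *
          ((2 * CA * (H : ℝ) ^ δ) * ((2 * CA * (H : ℝ) ^ δ) * (2 * CA * (H : ℝ) ^ δ))) *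
            (2 ^ δ * 4 ^ κ * (H : ℝ) ^ δ * Z) := by gcongr
    _ = (CE * (2 ^ δ * 4 ^ κ)) * (CL * CL) * (2 * CA) ^ 3 * ((H : ℝ) ^ δ) ^ 6 * Z := by ring
    _ ≤ (CE * (2 ^ δ * 4 ^ κ) + 1) * (CL * CL) * (2 * CA) ^ 3 * ((H : ℝ) ^ δ) ^ 6 * Z := by
        gcongr
        linarith
    _ = _ := by
        have : ((H : ℝ) ^ δ) ^ 6 = (H : ℝ) ^ ε := by
          rw [← Real.rpow_natCast, ← Real.rpow_mul hH0.le, hδ]
          congr 1
          push_cast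
          ring
        rw [this]

end Pool.Agent.H74.AE.J3
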