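import Pool.Agent.H38.AE.Targets

/-! Module A: sum of the reciprocals of the radicals. -/

set_option autoImplicit false

namespace Pool.Agent.H74.AE.A

open Pool.Agent.H38.AE

theorem rad_pos (n : ℕ) : 0 < rad n :=
  Finset.prod_pos fun p hp => (Nat.prime_of_mem_primeFactors hp).pos

theorem rad_mul {m n : ℕ} (h : Nat.Coprime m n) : rad (m * n) = rad m * rad n := by
  unfold rad
  rw [h.primeFactors_mul, Finset.prod_union h.disjoint_primeFactors]

theorem rad_one : rad 1 = 1 := by simp [rad]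

theorem rad_prime_pow {p k : ℕ} (hp : p.Prime) : rad (p ^ (k + 1)) = p := by
  unfold rad
  rw [Nat.primeFactors_prime_pow (by omega) hp, Finset.prod_singleton]

/-- the weighted reciprocal of the radical -/
noncomputable def ff (ε : ℝ) (m : ℕ) : ℝ := (m : ℝ) ^ (-ε) / rad m

theorem ff_nonneg (ε : ℝ) (m : ℕ) : 0 ≤ ff ε m :=
  div_nonneg (Real.rpow_nonneg (Nat.cast_nonneg _) _) (Nat.cast_nonneg _)

theorem ff_one (ε : ℝ) : ff ε 1 = 1 := by simp [ff, rad_one]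

theorem ff_mul (ε : ℝ) {m n : ℕ} (h : Nat.Coprime m n) : ff ε (m * n) = ff ε m * ff ε n := by
  unfold ff
  rw [rad_mul h]
  push_cast
  rw [Real.mul_rpow (Nat.cast_nonneg _) (Nat.cast_nonneg _)]
  ring

theorem ff_pow {ε : ℝ} {p : ℕ} (hp : p.Prime) (k : ℕ) :
    ff ε (p ^ (k + 1)) = ((p : ℝ) ^ (-ε)) ^ (k + 1) / p := by
  unfold ff
  rw [rad_prime_pow hp]
  push_cast
  rw [← Real.rpow_natCast, ← Real.rpow_mul (Nat.cast_nonneg _), ← Real.rpow_natCast,
    ← Real.rpow_mul (Nat.cast_nonneg _)]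
  congr 2
  ring

/-- the local factor -/
theorem local_factor {ε : ℝ} (hε : 0 < ε) {p : ℕ} (hp : p.Prime) :
    Summable (fun n : ℕ => ‖ff ε (p ^ n)‖) ∧
      ∑' n : ℕ, ff ε (p ^ n) ≤ 1 + 1 / (1 - (2 : ℝ) ^ (-ε)) * (p : ℝ) ^ (-(1 + ε)) := by
  have hp0 : (0 : ℝ) < p := by exact_mod_cast hp.pos
  have hp2 : (2 : ℝ) ≤ p := by exact_mod_cast hp.two_le
  obtain ⟨r, hr⟩ : ∃ r : ℝ, r = (p : ℝ) ^ (-ε) := ⟨_, rfl⟩
  have hr0 : 0 < r := by rw [hr]; exact Real.rpow_pos_of_pos hp0 _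
  have hr2 : r ≤ (2 : ℝ) ^ (-ε) := by
    rw [hr]
    exact Real.rpow_le_rpow_of_nonpos (by norm_num) hp2 (by linarith)
  have h21 : (2 : ℝ) ^ (-ε) < 1 := Real.rpow_lt_one_of_one_lt_of_neg (by norm_num) (by linarith)
  have hr1 : r < 1 := lt_of_le_of_lt hr2 h21
  have hgeo : HasSum (fun n : ℕ => r ^ n) (1 - r)⁻¹ := hasSum_geometric_of_lt_one hr0.le hr1
  have h1 : HasSum (fun n : ℕ => ff ε (p ^ (n + 1))) ((1 - r)⁻¹ * (r / p)) := by
    have := hgeo.mul_right (r / p)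
    refine this.congr_fun fun n => ?_
    rw [ff_pow hp, ← hr, pow_succ]
    ring
  have h2 : HasSum (fun n : ℕ => ff ε (p ^ n)) ((1 - r)⁻¹ * (r / p) + 1) := by
    have := (hasSum_nat_add_iff (f := fun n : ℕ => ff ε (p ^ n)) 1).1 h1
    simpa [ff_one] using this
  refine ⟨?_, ?_⟩
  · have : (fun n : ℕ => ‖ff ε (p ^ n)‖) = fun n : ℕ => ff ε (p ^ n) :=
      funext fun n => by rw [Real.norm_of_nonneg (ff_nonneg _ _)]
    rw [this]
    exact h2.summable
  · rw [h2.tsum_eq]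
    have h3 : (p : ℝ) ^ (-(1 + ε)) = r / p := by
      rw [hr, neg_add, Real.rpow_add hp0, Real.rpow_neg_one]
      ring
    rw [h3]
    have h4 : (1 - r)⁻¹ ≤ 1 / (1 - (2 : ℝ) ^ (-ε)) := by
      rw [one_div]
      exact inv_anti₀ (by linarith) (by linarith)
    have h5 : 0 ≤ r / p := by positivity
    have := mul_le_mul_of_nonneg_right h4 h5
    linarith

/-- A -/
theorem pf_A : T_A := by
  intro ε hε
  have h21 : (2 : ℝ) ^ (-ε) < 1 := Real.rpow_lt_one_of_one_lt_of_neg (by norm_num) (by linarith)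
  obtain ⟨c, hc⟩ : ∃ c : ℝ, c = 1 / (1 - (2 : ℝ) ^ (-ε)) := ⟨_, rfl⟩
  have hc0 : 0 < c := by rw [hc]; exact one_div_pos.2 (by linarith)
  have hsum : Summable fun n : ℕ => (n : ℝ) ^ (-(1 + ε)) :=
    Real.summable_nat_rpow.2 (by linarith)
  refine ⟨Real.exp (∑' n : ℕ, c * (n : ℝ) ^ (-(1 + ε))), Real.exp_pos _, fun N hN => ?_⟩
  obtain ⟨-, hH⟩ := EulerProduct.summable_and_hasSum_smoothNumbers_prod_primesBelow_tsum
    (f := ff ε) (ff_one ε) (fun h => ff_mul ε h) (fun hp => (local_factor hε hp).1) (N + 1)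
  have hprod : ∏ p ∈ (N + 1).primesBelow, ∑' n : ℕ, ff ε (p ^ n) ≤
      Real.exp (∑' n : ℕ, c * (n : ℝ) ^ (-(1 + ε))) := by
    calc ∏ p ∈ (N + 1).primesBelow, ∑' n : ℕ, ff ε (p ^ n)
        ≤ ∏ p ∈ (N + 1).primesBelow, Real.exp (c * (p : ℝ) ^ (-(1 + ε))) := by
          refine Finset.prod_le_prod (fun p _ => tsum_nonneg fun n => ff_nonneg _ _) fun p hp => ?_
          have h1 := (local_factor hε (Nat.prime_of_mem_primesBelow hp)).2
          rw [← hc] at h1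
          refine h1.trans ?_
          have := Real.add_one_le_exp (c * (p : ℝ) ^ (-(1 + ε)))
          linarith
      _ = Real.exp (∑ p ∈ (N + 1).primesBelow, c * (p : ℝ) ^ (-(1 + ε))) :=
          (Real.exp_sum _ _).symm
      _ ≤ _ := Real.exp_le_exp.2 ((hsum.mul_left c).sum_le_tsum _ fun n _ =>
          mul_nonneg hc0.le (Real.rpow_nonneg (Nat.cast_nonneg _) _))
  have h1 : ∑ n ∈ Finset.Icc 1 N, ff ε n ≤ ∏ p ∈ (N + 1).primesBelow, ∑' n : ℕ, ff ε (p ^ n) := by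
    have h2 := (hasSum_subtype_iff_indicator (f := ff ε) (s := (N + 1).smoothNumbers)).1 hH
    have h3 := sum_le_hasSum (Finset.Icc 1 N) (fun n _ =>
      Set.indicator_nonneg (fun m _ => ff_nonneg ε m) n) h2
    refine le_trans (le_of_eq ?_) h3
    refine Finset.sum_congr rfl fun n hn => ?_
    rw [Finset.mem_Icc] at hn
    rw [Set.indicator_of_mem]
    exact Nat.mem_smoothNumbers_of_lt (by omega) (by omega)
  have hN0 : (0 : ℝ) < N := by exact_mod_cast hN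
  calc ∑ n ∈ Finset.Icc 1 N, (1 : ℝ) / (rad n : ℝ)
      ≤ ∑ n ∈ Finset.Icc 1 N, ff ε n * (N : ℝ) ^ ε := by
        refine Finset.sum_le_sum fun n hn => ?_
        rw [Finset.mem_Icc] at hn
        have hn0 : (0 : ℝ) < n := by exact_mod_cast hn.1
        have hr : (0 : ℝ) < rad n := by exact_mod_cast rad_pos n
        unfold ff
        rw [div_mul_eq_mul_div]
        refine div_le_div_of_nonneg_right ?_ hr.le
        rw [Real.rpow_neg hn0.le, ← div_eq_inv_mul, le_div_iff₀ (Real.rpow_pos_of_pos hn0 _),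
          one_mul]
        exact Real.rpow_le_rpow hn0.le (by exact_mod_cast hn.2) hε.le
    _ = (∑ n ∈ Finset.Icc 1 N, ff ε n) * (N : ℝ) ^ ε := (Finset.sum_mul _ _ _).symm
    _ ≤ _ := mul_le_mul_of_nonneg_right (h1.trans hprod) (Real.rpow_nonneg hN0.le _)

end Pool.Agent.H74.AE.A
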